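import Mathlib.MeasureTheory.Integral.Bochner.Set
import Mathlib.MeasureTheory.Measure.Lebesgue.Basic
import Mathlib.MeasureTheory.Constructions.BorelSpace.Order

/-!
# Piecewise constant functions on the cake
-/

set_option autoImplicit false

namespace Pool.Agent.Q214.Cake

open MeasureTheory Set

/-- `f` is constant on each of finitely many intervals that partition `[0,1]`. -/
def PC {α : Type} (f : ℝ → α) : Prop :=
  ∃ P : Finset (Set ℝ), (∀ I ∈ P, I.OrdConnected) ∧ (∀ I ∈ P, ∀ J ∈ P, I ≠ J → Disjoint I J) ∧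
    (⋃ I ∈ P, I) = Icc 0 1 ∧ ∀ I ∈ P, ∀ x ∈ I, ∀ y ∈ I, f x = f y

variable {α β γ : Type}

theorem PC.map {f : ℝ → α} (h : PC f) (φ : α → β) : PC fun x => φ (f x) := by
  obtain ⟨P, h1, h2, h3, h4⟩ := h
  exact ⟨P, h1, h2, h3, fun I hI x hx y hy => by simp only [h4 I hI x hx y hy]⟩

theorem PC.congr {f g : ℝ → α} (h : PC f) (hfg : ∀ x ∈ Icc (0 : ℝ) 1, f x = g x) : PC g := by
  obtain ⟨P, h1, h2, h3, h4⟩ := h
  have h5 : ∀ I ∈ P, ∀ x ∈ I, x ∈ Icc (0 : ℝ) 1 := by
    intro I hI x hx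
    rw [← h3]
    exact mem_iUnion₂.2 ⟨I, hI, hx⟩
  refine ⟨P, h1, h2, h3, fun I hI x hx y hy => ?_⟩
  rw [← hfg x (h5 I hI x hx), ← hfg y (h5 I hI y hy)]
  exact h4 I hI x hx y hy

theorem PC.const (c : α) : PC fun _ => c :=
  ⟨{Icc 0 1}, by simp [ordConnected_Icc], by
    intro I hI J hJ hne
    simp only [Finset.mem_singleton] at hI hJ
    exact absurd (hI.trans hJ.symm) hne, by simp, by simp⟩

theorem PC.prod {f : ℝ → α} {g : ℝ → β} (hf : PC f) (hg : PC g) : PC fun x => (f x, g x) := by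
  classical
  obtain ⟨P, h1, h2, h3, h4⟩ := hf
  obtain ⟨Q, k1, k2, k3, k4⟩ := hg
  refine ⟨(P ×ˢ Q).image fun z => z.1 ∩ z.2, ?_, ?_, ?_, ?_⟩
  · intro I hI
    obtain ⟨z, hz, rfl⟩ := Finset.mem_image.1 hI
    obtain ⟨hz1, hz2⟩ := Finset.mem_product.1 hz
    exact (h1 _ hz1).inter (k1 _ hz2)
  · intro I hI J hJ hne
    obtain ⟨z, hz, rfl⟩ := Finset.mem_image.1 hI
    obtain ⟨w, hw, rfl⟩ := Finset.mem_image.1 hJ
    obtain ⟨hz1, hz2⟩ := Finset.mem_product.1 hz
    obtain ⟨hw1, hw2⟩ := Finset.mem_product.1 hw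
    by_cases e1 : z.1 = w.1
    · by_cases e2 : z.2 = w.2
      · exact absurd (by rw [e1, e2]) hne
      · exact (k2 _ hz2 _ hw2 e2).mono inter_subset_right inter_subset_right
    · exact (h2 _ hz1 _ hw1 e1).mono inter_subset_left inter_subset_left
  · ext x
    simp only [mem_iUnion, Finset.mem_image, Finset.mem_product, exists_prop]
    constructor
    · rintro ⟨_, ⟨z, ⟨hz1, -⟩, rfl⟩, hx, -⟩
      rw [← h3]
      exact mem_iUnion₂.2 ⟨_, hz1, hx⟩
    · intro hx
      have a1 := hx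
      have a2 := hx
      rw [← h3] at a1
      rw [← k3] at a2
      obtain ⟨I, hI, hxI⟩ := mem_iUnion₂.1 a1
      obtain ⟨J, hJ, hxJ⟩ := mem_iUnion₂.1 a2
      exact ⟨I ∩ J, ⟨(I, J), ⟨hI, hJ⟩, rfl⟩, hxI, hxJ⟩
  · intro I hI x hx y hy
    obtain ⟨z, hz, rfl⟩ := Finset.mem_image.1 hI
    obtain ⟨hz1, hz2⟩ := Finset.mem_product.1 hz
    simp only [h4 _ hz1 x hx.1 y hy.1, k4 _ hz2 x hx.2 y hy.2]

theorem PC.map₂ {f : ℝ → α} {g : ℝ → β} (hf : PC f) (hg : PC g) (φ : α → β → γ) :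
    PC fun x => φ (f x) (g x) := (hf.prod hg).map fun z => φ z.1 z.2

theorem PC.interval {I : Set ℝ} (hI : I.OrdConnected) : PC fun x => x ∈ I := by
  classical
  rcases I.eq_empty_or_nonempty with rfl | ⟨z, hz⟩
  · exact (PC.const False).congr fun x _ => by simp
  refine ⟨{Icc 0 1 ∩ I, Icc 0 1 ∩ {x | ∀ y ∈ I, x < y}, Icc 0 1 ∩ {x | ∀ y ∈ I, y < x}},
    ?_, ?_, ?_, ?_⟩
  · intro J hJ
    simp only [Finset.mem_insert, Finset.mem_singleton] at hJ
    rcases hJ with rfl | rfl | rfl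
    · exact ordConnected_Icc.inter hI
    · refine ordConnected_Icc.inter ⟨fun a _ b hb c hc y hy => lt_of_le_of_lt hc.2 (hb y hy)⟩
    · refine ordConnected_Icc.inter ⟨fun a ha b _ c hc y hy => lt_of_lt_of_le (ha y hy) hc.1⟩
  · have d1 : Disjoint (Icc (0:ℝ) 1 ∩ I) (Icc 0 1 ∩ {x | ∀ y ∈ I, x < y}) := by
      rw [Set.disjoint_left]
      rintro x ⟨-, hx⟩ ⟨-, hx'⟩
      exact lt_irrefl x (hx' x hx)
    have d2 : Disjoint (Icc (0:ℝ) 1 ∩ I) (Icc 0 1 ∩ {x | ∀ y ∈ I, y < x}) := by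
      rw [Set.disjoint_left]
      rintro x ⟨-, hx⟩ ⟨-, hx'⟩
      exact lt_irrefl x (hx' x hx)
    have d3 : Disjoint (Icc (0:ℝ) 1 ∩ {x | ∀ y ∈ I, x < y}) (Icc 0 1 ∩ {x | ∀ y ∈ I, y < x}) := by
      rw [Set.disjoint_left]
      rintro x ⟨-, hx⟩ ⟨-, hx'⟩
      exact lt_irrefl x ((hx z hz).trans (hx' z hz))
    intro J hJ K hK hne
    simp only [Finset.mem_insert, Finset.mem_singleton] at hJ hK
    rcases hJ with rfl | rfl | rfl <;> rcases hK with rfl | rfl | rfl
    · exact absurd rfl hne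
    · exact d1
    · exact d2
    · exact d1.symm
    · exact absurd rfl hne
    · exact d3
    · exact d2.symm
    · exact d3.symm
    · exact absurd rfl hne
  · ext x
    simp only [Finset.mem_insert, Finset.mem_singleton, mem_iUnion, exists_prop]
    constructor
    · rintro ⟨J, rfl | rfl | rfl, hx⟩ <;> exact hx.1
    · intro hx
      by_cases h1 : x ∈ I
      · exact ⟨_, Or.inl rfl, hx, h1⟩
      by_cases h2 : ∀ y ∈ I, x < y
      · exact ⟨_, Or.inr (Or.inl rfl), hx, h2⟩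
      · refine ⟨_, Or.inr (Or.inr rfl), hx, ?_⟩
        push Not at h2
        obtain ⟨y, hy, hyx⟩ := h2
        intro w hw
        by_contra hlt
        push Not at hlt
        exact h1 (hI.out hy hw ⟨hyx, hlt⟩)
  · intro J hJ x hx y hy
    simp only [Finset.mem_insert, Finset.mem_singleton] at hJ
    rcases hJ with rfl | rfl | rfl
    · exact propext ⟨fun _ => hy.2, fun _ => hx.2⟩
    · exact propext ⟨fun h => absurd (hx.2 x h) (lt_irrefl x), fun h => absurd (hy.2 y h) (lt_irrefl y)⟩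
    · exact propext ⟨fun h => absurd (hx.2 x h) (lt_irrefl x), fun h => absurd (hy.2 y h) (lt_irrefl y)⟩

/-- Membership in a finite union of intervals is piecewise constant. -/
theorem PC.union (P : Finset (Set ℝ)) (hP : ∀ I ∈ P, I.OrdConnected) :
    PC fun x => x ∈ ⋃ I ∈ P, I := by
  classical
  induction P using Finset.induction_on with
  | empty => exact (PC.const False).congr fun x _ => by simp
  | insert I P _ ih =>
    have h1 := PC.interval (hP I (Finset.mem_insert_self I P))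
    have h2 := ih fun J hJ => hP J (Finset.mem_insert_of_mem hJ)
    refine (h1.map₂ h2 fun p q => p ∨ q).congr fun x _ => ?_
    simp only [Finset.mem_insert, iUnion_iUnion_eq_or_left, mem_union]

theorem PC.integrableOn {f : ℝ → ℝ} (h : PC f) : IntegrableOn f (Icc 0 1) := by
  obtain ⟨P, h1, h2, h3, h4⟩ := h
  rw [← h3, integrableOn_finset_iUnion]
  intro I hI
  have hm : MeasurableSet I := (h1 I hI).measurableSet
  have hsub : I ⊆ Icc 0 1 := by
    rw [← h3]
    exact subset_iUnion₂_of_subset I hI subset_rfl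
  have hfin : volume I ≠ ⊤ := ne_top_of_le_ne_top (by simp) (measure_mono hsub)
  rcases I.eq_empty_or_nonempty with rfl | ⟨z, hz⟩
  · simp
  · refine IntegrableOn.congr_fun (f := fun _ => f z) ?_ (fun x hx => h4 I hI z hz x hx) hm
    exact integrableOn_const hfin

theorem PC.measurableSet {X : Set ℝ} (h : PC fun x => x ∈ X) (hX : X ⊆ Icc 0 1) :
    MeasurableSet X := by
  classical
  obtain ⟨P, h1, h2, h3, h4⟩ := h
  have : X = ⋃ I ∈ P.filter (fun I => I ⊆ X), I := by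
    ext x
    simp only [Finset.mem_filter, mem_iUnion, exists_prop]
    constructor
    · intro hx
      have hx' := hX hx
      rw [← h3] at hx'
      obtain ⟨I, hI, hxI⟩ := mem_iUnion₂.1 hx'
      refine ⟨I, ⟨hI, fun y hy => ?_⟩, hxI⟩
      exact (h4 I hI x hxI y hy).mp hx
    · rintro ⟨I, ⟨-, hI⟩, hx⟩
      exact hI hx
  rw [this]
  refine Finset.measurableSet_biUnion _ fun I hI => ?_
  exact (h1 I (Finset.mem_filter.1 hI).1).measurableSet

/-- The densities. -/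
structure Good (f : ℝ → ℝ) : Prop where
  nonneg : ∀ x, 0 ≤ f x
  off : ∀ x, x ∉ Icc (0 : ℝ) 1 → f x = 0
  pc : PC f
  pos : 0 < ∫ x in Icc (0 : ℝ) 1, f x

/-- The value of a set. -/
noncomputable def val (f : ℝ → ℝ) (X : Set ℝ) : ℝ := ∫ x in X, f x

theorem val_nonneg {f : ℝ → ℝ} (h : ∀ x, 0 ≤ f x) (X : Set ℝ) : 0 ≤ val f X :=
  integral_nonneg fun x => h x

theorem val_mono {f : ℝ → ℝ} (h : ∀ x, 0 ≤ f x) (hf : PC f) {X Y : Set ℝ} (hXY : X ⊆ Y)
    (hY : Y ⊆ Icc 0 1) : val f X ≤ val f Y := by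
  refine setIntegral_mono_set (hf.integrableOn.mono_set hY) ?_ ?_
  · exact Filter.Eventually.of_forall fun x => h x
  · exact hXY.eventuallyLE

theorem val_split {f : ℝ → ℝ} (hf : PC f) {X B : Set ℝ} (hX : X ⊆ Icc 0 1)
    (hB : MeasurableSet B) : val f X = val f (X ∩ B) + val f (X \ B) :=
  (integral_inter_add_sdiff hB (hf.integrableOn.mono_set hX)).symm

theorem val_compl {f : ℝ → ℝ} (hf : PC f) {X : Set ℝ} (hX : X ⊆ Icc 0 1) (hm : MeasurableSet X) :
    val f (Icc 0 1 \ X) = val f (Icc 0 1) - val f X := by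
  have := val_split hf (subset_refl (Icc (0 : ℝ) 1)) hm
  rw [inter_eq_self_of_subset_right hX] at this
  linarith

end Pool.Agent.Q214.Cake
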