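import Mathlib.Tactic.Linarith
import Mathlib.Tactic.Positivity
import Mathlib.Tactic.Ring
import Mathlib.Tactic.FieldSimp
import Mathlib.Algebra.Order.Archimedean.Real.Basic

/-!
# The finite dimensional part of the impossibility proof
-/

set_option autoImplicit false

namespace Pool.Agent.Q214.Cake

/-- Triples of real numbers. -/
structure V3 where
  a : ℝ
  b : ℝ
  c : ℝ

/-- The scalar product. -/
def dot (v x : V3) : ℝ := v.a * x.a + v.b * x.b + v.c * x.c

/-- Admissible types. -/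
def Val (m v : V3) : Prop := 0 ≤ v.a ∧ 0 ≤ v.b ∧ 0 ≤ v.c ∧ 0 < dot v m

/-- The type `(1,1,1)`. -/
def one : V3 := ⟨1, 1, 1⟩

variable {m : V3} {x : V3 → V3 → V3}

/-- The hypotheses on the restricted mechanism. -/
structure Mec (m : V3) (x : V3 → V3 → V3) : Prop where
  ma : 0 ≤ m.a
  mb : 0 < m.b
  mc : 0 ≤ m.c
  xa : ∀ v p, Val m v → Val m p → 0 ≤ (x v p).a ∧ (x v p).a ≤ m.a
  xb : ∀ v p, Val m v → Val m p → 0 ≤ (x v p).b ∧ (x v p).b ≤ m.b
  xc : ∀ v p, Val m v → Val m p → 0 ≤ (x v p).c ∧ (x v p).c ≤ m.c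
  t1 : ∀ v v' p, Val m v → Val m v' → Val m p → dot v (x v' p) ≤ dot v (x v p)
  t2 : ∀ v p p', Val m v → Val m p → Val m p' → dot p (x v p) ≤ dot p (x v p')

theorem val_of_pos (h : Mec m x) {v : V3} (ha : 0 ≤ v.a) (hb : 0 < v.b) (hc : 0 ≤ v.c) :
    Val m v := by
  refine ⟨ha, hb.le, hc, ?_⟩
  have h1 := mul_nonneg ha h.ma
  have h2 := mul_pos hb h.mb
  have h3 := mul_nonneg hc h.mc
  simp only [dot]
  linarith

theorem val_one (h : Mec m x) : Val m one :=
  val_of_pos h (by simp [one]) (by simp [one]) (by simp [one])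

/-- A telescoping estimate. -/
theorem tele (D G : ℕ → ℝ) (s : ℝ) (h : ∀ k, s * (G k - G (k + 1)) ≤ D (k + 1) - D k) (n : ℕ) :
    s * (G 0 - G n) ≤ D n - D 0 := by
  induction n with
  | zero => simp
  | succ n ih =>
    have := h n
    have e : s * (G 0 - G (n + 1)) = s * (G 0 - G n) + s * (G n - G (n + 1)) := by ring
    rw [e]
    linarith

/-- The limit of the telescoping estimate. -/
theorem lim_arg {A C : ℝ} (hC : 0 ≤ C) (h : ∀ n : ℕ, 0 < n → -(C / n) ≤ A) : 0 ≤ A := by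
  by_contra hA
  push Not at hA
  obtain ⟨n, hn⟩ := exists_nat_gt (C / (-A))
  have hn0 : (0 : ℝ) < n := lt_of_le_of_lt (div_nonneg hC (by linarith)) hn
  have hn1 : 0 < n := by exact_mod_cast hn0
  have h1 := h n hn1
  rw [div_lt_iff₀ (by linarith)] at hn
  have h2 : C / n < -A := by
    rw [div_lt_iff₀ hn0]
    linarith
  linarith

/-- Directional monotonicity of the difference of two utility functions. -/
theorem mono_dir {x : V3 → V3 → V3} (h : Mec m x) (p p' : V3) (hp : Val m p) (hp' : Val m p')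
    (G : V3) (hG : 0 ≤ G.a ∧ 0 ≤ G.b ∧ 0 ≤ G.c)
    (hle : ∀ v, Val m v → dot G (x v p) ≤ dot G (x v p'))
    (v : V3) (hv : Val m v) (s : ℝ) (hs : 0 ≤ s) :
    dot v (x v p') - dot v (x v p) ≤
      dot ⟨v.a + s * G.a, v.b + s * G.b, v.c + s * G.c⟩
          (x ⟨v.a + s * G.a, v.b + s * G.b, v.c + s * G.c⟩ p') -
        dot ⟨v.a + s * G.a, v.b + s * G.b, v.c + s * G.c⟩
          (x ⟨v.a + s * G.a, v.b + s * G.b, v.c + s * G.c⟩ p) := by
  obtain ⟨g1, g2, g3⟩ := hG
  obtain ⟨v1, v2, v3, v4⟩ := hv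
  -- the point after parameter `r`
  let w : ℝ → V3 := fun r => ⟨v.a + r * G.a, v.b + r * G.b, v.c + r * G.c⟩
  have hw : ∀ r, 0 ≤ r → Val m (w r) := by
    intro r hr
    have e1 := mul_nonneg hr g1
    have e2 := mul_nonneg hr g2
    have e3 := mul_nonneg hr g3
    refine ⟨?_, ?_, ?_, ?_⟩
    · change 0 ≤ v.a + r * G.a; linarith
    · change 0 ≤ v.b + r * G.b; linarith
    · change 0 ≤ v.c + r * G.c; linarith
    · have e4 := mul_nonneg e1 h.ma
      have e5 := mul_nonneg e2 h.mb.le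
      have e6 := mul_nonneg e3 h.mc
      simp only [dot] at v4 ⊢
      change 0 < (v.a + r * G.a) * m.a + (v.b + r * G.b) * m.b + (v.c + r * G.c) * m.c
      nlinarith
  have hw0 : w 0 = v := by
    simp [w]
  have key : ∀ n : ℕ, 0 < n → -((s * dot G m) / n) ≤
      (dot (w s) (x (w s) p') - dot (w s) (x (w s) p)) - (dot v (x v p') - dot v (x v p)) := by
    intro n hn
    have hn0 : (0 : ℝ) < n := by exact_mod_cast hn
    let t : ℕ → ℝ := fun k => (k : ℝ) * (s / n)
    have ht : ∀ k, 0 ≤ t k := fun k => mul_nonneg (Nat.cast_nonneg k) (div_nonneg hs hn0.le)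
    have ht1 : ∀ k, t (k + 1) = t k + s / n := by
      intro k
      simp only [t]
      push_cast
      ring
    have htn : t n = s := by
      simp only [t]
      field_simp
    have ht0 : t 0 = 0 := by simp [t]
    have h1 := tele (fun k => dot (w (t k)) (x (w (t k)) p') - dot (w (t k)) (x (w (t k)) p))
      (fun k => dot G (x (w (t k)) p)) (s / n) (by
        intro k
        have a1 := h.t1 (w (t (k + 1))) (w (t k)) p' (hw _ (ht _)) (hw _ (ht _)) hp'
        have a2 := h.t1 (w (t k)) (w (t (k + 1))) p (hw _ (ht _)) (hw _ (ht _)) hp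
        have a3 := hle (w (t k)) (hw _ (ht _))
        have a4 : dot (w (t (k + 1))) (x (w (t k)) p') = dot (w (t k)) (x (w (t k)) p') +
            (s / n) * dot G (x (w (t k)) p') := by
          simp only [dot, w, ht1]
          ring
        have a5 : dot (w (t (k + 1))) (x (w (t (k + 1))) p) =
            dot (w (t k)) (x (w (t (k + 1))) p) + (s / n) * dot G (x (w (t (k + 1))) p) := by
          simp only [dot, w, ht1]
          ring
        have a6 := mul_le_mul_of_nonneg_left a3 (div_nonneg hs hn0.le)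
        have a7 : s / n * (dot G (x (w (t k)) p) - dot G (x (w (t (k + 1))) p)) =
          s / n * dot G (x (w (t k)) p) - s / n * dot G (x (w (t (k + 1))) p) := by ring
        change s / n * (dot G (x (w (t k)) p) - dot G (x (w (t (k + 1))) p)) ≤
          (dot (w (t (k + 1))) (x (w (t (k + 1))) p') - dot (w (t (k + 1))) (x (w (t (k + 1))) p)) -
            (dot (w (t k)) (x (w (t k)) p') - dot (w (t k)) (x (w (t k)) p))
        rw [a7]
        linarith) n
    simp only [htn, ht0, hw0] at h1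
    have b1 : 0 ≤ dot G (x v p) := by
      obtain ⟨c1, -⟩ := h.xa v p ⟨v1, v2, v3, v4⟩ hp
      obtain ⟨c2, -⟩ := h.xb v p ⟨v1, v2, v3, v4⟩ hp
      obtain ⟨c3, -⟩ := h.xc v p ⟨v1, v2, v3, v4⟩ hp
      simp only [dot]
      positivity
    have b2 : dot G (x (w s) p) ≤ dot G m := by
      obtain ⟨-, c1⟩ := h.xa (w s) p (hw s hs) hp
      obtain ⟨-, c2⟩ := h.xb (w s) p (hw s hs) hp
      obtain ⟨-, c3⟩ := h.xc (w s) p (hw s hs) hp
      have d1 := mul_le_mul_of_nonneg_left c1 g1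
      have d2 := mul_le_mul_of_nonneg_left c2 g2
      have d3 := mul_le_mul_of_nonneg_left c3 g3
      simp only [dot] at d1 d2 d3 ⊢
      linarith
    have b3 : -((s * dot G m) / n) ≤ s / n * (dot G (x v p) - dot G (x (w s) p)) := by
      have : -((s * dot G m) / n) = s / n * (0 - dot G m) := by ring
      rw [this]
      exact mul_le_mul_of_nonneg_left (by linarith) (div_nonneg hs hn0.le)
    exact b3.trans h1
  have hC : 0 ≤ s * dot G m := by
    have e1 := mul_nonneg g1 h.ma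
    have e2 := mul_nonneg g2 h.mb.le
    have e3 := mul_nonneg g3 h.mc
    refine mul_nonneg hs ?_
    simp only [dot]
    linarith
  have := lim_arg hC key
  change dot v (x v p') - dot v (x v p) ≤ dot (w s) (x (w s) p') - dot (w s) (x (w s) p)
  linarith

/-- The values in the region where the second agent reports `one`. -/
theorem region_one (h : Mec m x)
    (H1 : ∀ v, Val m v → v.a * m.a ≤ dot v (x v one))
    {d : ℝ} (hd : 0 < d) (H2 : ∀ v, Val m v → d * ((x v one).b + (x v one).c) ≤ m.a - (x v one).a)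
    {v : V3} (hv : Val m v) (hb : v.b ≤ d * v.a) (hc : v.c ≤ d * v.a) :
    dot v (x v one) = v.a * m.a := by
  refine le_antisymm ?_ (H1 v hv)
  obtain ⟨x1, x2⟩ := h.xa v one hv (val_one h)
  obtain ⟨x3, x4⟩ := h.xb v one hv (val_one h)
  obtain ⟨x5, x6⟩ := h.xc v one hv (val_one h)
  obtain ⟨v1, v2, v3, v4⟩ := hv
  have h2 := H2 v ⟨v1, v2, v3, v4⟩
  have e1 := mul_le_mul_of_nonneg_right hb x3
  have e2 := mul_le_mul_of_nonneg_right hc x5
  have e3 := mul_le_mul_of_nonneg_left h2 v1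
  simp only [dot] at *
  nlinarith

/-- Allocation just above the region. -/
theorem above_one (h : Mec m x)
    (H1 : ∀ v, Val m v → v.a * m.a ≤ dot v (x v one))
    {d : ℝ} (hd : 0 < d) (H2 : ∀ v, Val m v → d * ((x v one).b + (x v one).c) ≤ m.a - (x v one).a)
    {v : V3} (hv : Val m v) {r : ℝ} (hr : 0 < r)
    (hb : v.b ≤ d * v.a) (hc : v.c ≤ d * v.a) :
    x ⟨v.a + r, v.b, v.c⟩ one = ⟨m.a, 0, 0⟩ := by
  obtain ⟨v1, v2, v3, v4⟩ := hv
  have hw : Val m ⟨v.a + r, v.b, v.c⟩ := by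
    refine ⟨by change 0 ≤ v.a + r; linarith, v2, v3, ?_⟩
    have := mul_nonneg hr.le h.ma
    simp only [dot] at v4 ⊢
    nlinarith
  obtain ⟨x1, x2⟩ := h.xa _ one hw (val_one h)
  obtain ⟨x3, x4⟩ := h.xb _ one hw (val_one h)
  obtain ⟨x5, x6⟩ := h.xc _ one hw (val_one h)
  have h1 := H1 _ hw
  have h2 := H2 _ hw
  generalize hX : x ⟨v.a + r, v.b, v.c⟩ one = X at *
  simp only [dot] at h1
  have e1 := mul_le_mul_of_nonneg_right hb x3
  have e2 := mul_le_mul_of_nonneg_right hc x5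
  have e3 := mul_le_mul_of_nonneg_left h2 v1
  have e4 : r * (m.a - X.a) ≤ 0 := by nlinarith
  have e5 : X.a = m.a := by
    by_contra hne
    have : 0 < m.a - X.a := by
      rcases lt_or_eq_of_le x2 with h | h
      · linarith
      · exact absurd h hne
    have := mul_pos hr this
    linarith
  have e6 : d * (X.b + X.c) ≤ 0 := by linarith
  have e7 : X.b + X.c ≤ 0 := by
    by_contra hlt
    push Not at hlt
    have := mul_pos hd hlt
    linarith
  have e8 : X.b = 0 := by linarith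
  have e9 : X.c = 0 := by linarith
  cases X
  simp only at e5 e8 e9
  subst e5 e8 e9
  rfl

/-- **The finite dimensional core of the proof.** -/
theorem core (h : Mec m x)
    (H1 : ∀ v, Val m v → v.a * m.a ≤ dot v (x v one))
    {d : ℝ} (hd : 0 < d) (hd1 : d < 1)
    (H2 : ∀ v, Val m v → d * ((x v one).b + (x v one).c) ≤ m.a - (x v one).a)
    {e : ℝ} (he : d < e) (he1 : e < d + d * (1 - d) / 2)
    (H3 : (x ⟨1, e, e⟩ one).b = m.b) (H3' : (x ⟨1, e, e⟩ one).c = 0)
    (H4 : ∀ v, Val m v → (x v ⟨0, 1, 0⟩).b < m.b) : False := by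
  -- the two auxiliary types
  obtain ⟨θ, hθ1, hθ2⟩ := exists_between he1
  obtain ⟨θ', hθ3, hθ4⟩ := exists_between hθ2
  have hdd : 0 < 1 - d := by linarith
  have hW : ∀ y, e < y → Val m ⟨1, y, d⟩ := fun y hy =>
    val_of_pos h zero_le_one (by change 0 < y; linarith) hd.le
  have hE : Val m ⟨0, 1, 0⟩ := val_of_pos h le_rfl zero_lt_one le_rfl
  have hc4 := H4 ⟨1, θ', d⟩ (hW θ' (by linarith))
  obtain ⟨κ, hκ⟩ : ∃ κ, κ = m.b - (x ⟨1, θ', d⟩ ⟨0, 1, 0⟩).b := ⟨_, rfl⟩
  have hκ0 : 0 < κ := by linarith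
  have hmc := h.mc
  have hma := h.ma
  have hmb := h.mb
  obtain ⟨η, hη⟩ : ∃ η, η = min 1 (κ / (2 * (m.c + 1))) := ⟨_, rfl⟩
  have hη0 : 0 < η := by rw [hη]; exact lt_min one_pos (by positivity)
  have hη1 : η ≤ 1 := by rw [hη]; exact min_le_left _ _
  have hη2 : η * m.c ≤ κ / 2 := by
    have e1 : η ≤ κ / (2 * (m.c + 1)) := by rw [hη]; exact min_le_right _ _
    have e2 : η * (m.c + 1) ≤ κ / 2 := by
      have := mul_le_mul_of_nonneg_right e1 (by linarith : (0:ℝ) ≤ m.c + 1)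
      have e3 : κ / (2 * (m.c + 1)) * (m.c + 1) = κ / 2 := by
        field_simp
      linarith
    nlinarith
  obtain ⟨t, ht⟩ : ∃ t, t = 2 * (m.a + m.c + 1) / κ := ⟨_, rfl⟩
  have ht0 : 0 < t := by rw [ht]; positivity
  have ht1 : t * κ = 2 * (m.a + m.c + 1) := by rw [ht]; field_simp
  obtain ⟨q, hq⟩ : ∃ q : V3, q = ⟨1, 1 + t * (1 + η), 1 + t * η⟩ := ⟨_, rfl⟩
  have hqa : q.a = 1 := by rw [hq]
  have hqb : q.b = 1 + t * (1 + η) := by rw [hq]
  have hqc : q.c = 1 + t * η := by rw [hq]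
  have hqV : Val m q := val_of_pos h (by rw [hqa]; exact zero_le_one)
    (by rw [hqb]; positivity) (by rw [hqc]; positivity)
  have h1V := val_one h
  -- comparison of `q` and `one`
  have c1 : ∀ v, Val m v → dot one (x v one) ≤ dot one (x v q) := fun v hv =>
    h.t2 v one q hv h1V hqV
  have c2 : ∀ v, Val m v → dot ⟨0, 1 + η, η⟩ (x v q) ≤ dot ⟨0, 1 + η, η⟩ (x v one) := by
    intro v hv
    have e1 := h.t2 v q one hv hqV h1V
    have e2 := c1 v hv
    have e3 : ∀ y, dot q y = dot one y + t * dot ⟨0, 1 + η, η⟩ y := by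
      intro y
      simp only [dot, hqa, hqb, hqc, one]
      ring
    rw [e3, e3] at e1
    have e4 : t * dot ⟨0, 1 + η, η⟩ (x v q) ≤ t * dot ⟨0, 1 + η, η⟩ (x v one) := by linarith
    exact le_of_mul_le_mul_left e4 ht0
  -- the value at `q` in the region
  have reg : ∀ v, Val m v → v.b ≤ d * v.a → v.c ≤ d * v.a →
      dot v (x v q) - dot v (x v one) = 0 := by
    intro v hv hb hc
    rw [region_one h H1 hd H2 hv hb hc]
    obtain ⟨v1, v2, v3, v4⟩ := hv
    have up : ∀ r : ℝ, 0 < r → x ⟨v.a + r, v.b, v.c⟩ q = ⟨m.a, 0, 0⟩ := by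
      intro r hr
      have hw : Val m ⟨v.a + r, v.b, v.c⟩ := by
        refine ⟨by change 0 ≤ v.a + r; linarith, v2, v3, ?_⟩
        have := mul_nonneg hr.le h.ma
        simp only [dot] at v4 ⊢
        nlinarith
      have f1 := above_one h H1 hd H2 ⟨v1, v2, v3, v4⟩ hr hb hc
      have f2 := c1 _ hw
      have f3 := h.t2 _ q one hw hqV h1V
      rw [f1] at f2 f3
      obtain ⟨x1, x2⟩ := h.xa _ q hw hqV
      obtain ⟨x3, x4⟩ := h.xb _ q hw hqV
      obtain ⟨x5, x6⟩ := h.xc _ q hw hqV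
      generalize x ⟨v.a + r, v.b, v.c⟩ q = Y at *
      simp only [dot, one, hqa, hqb, hqc] at f2 f3
      have g1 : 0 ≤ t * (1 + η) * Y.b := by positivity
      have g2 : 0 ≤ t * η * Y.c := by positivity
      have g3 : t * (1 + η) * Y.b + t * η * Y.c ≤ 0 := by nlinarith
      have g4 : Y.b = 0 := by
        by_contra hne
        have : 0 < Y.b := lt_of_le_of_ne x3 (Ne.symm hne)
        have : 0 < t * (1 + η) * Y.b := by positivity
        linarith
      have g5 : Y.c = 0 := by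
        by_contra hne
        have : 0 < Y.c := lt_of_le_of_ne x5 (Ne.symm hne)
        have : 0 < t * η * Y.c := by positivity
        linarith
      have g6 : Y.a = m.a := by
        rw [g4, g5] at f2
        linarith
      cases Y
      simp only at g4 g5 g6
      subst g4 g5 g6
      rfl
    have lo : v.a * m.a ≤ dot v (x v q) := by
      have hw : Val m ⟨v.a + 1, v.b, v.c⟩ := by
        refine ⟨by change 0 ≤ v.a + 1; linarith, v2, v3, ?_⟩
        simp only [dot] at v4 ⊢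
        nlinarith
      have f1 := h.t1 v ⟨v.a + 1, v.b, v.c⟩ q ⟨v1, v2, v3, v4⟩ hw hqV
      rw [up 1 one_pos] at f1
      simpa [dot] using f1
    have hi : dot v (x v q) ≤ v.a * m.a := by
      refine le_of_forall_pos_le_add ?_
      intro ε hε
      obtain ⟨r, hr⟩ : ∃ r, r = ε / (m.a + 1) := ⟨_, rfl⟩
      have hr0 : 0 < r := by rw [hr]; positivity
      have hr1 : r * m.a ≤ ε := by
        have : r * (m.a + 1) = ε := by rw [hr]; field_simp
        nlinarith
      have hw : Val m ⟨v.a + r, v.b, v.c⟩ := by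
        refine ⟨by change 0 ≤ v.a + r; linarith, v2, v3, ?_⟩
        have := mul_nonneg hr0.le h.ma
        simp only [dot] at v4 ⊢
        nlinarith
      have f1 := h.t1 ⟨v.a + r, v.b, v.c⟩ v q hw ⟨v1, v2, v3, v4⟩ hqV
      rw [up r hr0] at f1
      obtain ⟨x1, x2⟩ := h.xa v q ⟨v1, v2, v3, v4⟩ hqV
      have f2 := mul_nonneg hr0.le x1
      simp only [dot] at f1 ⊢
      nlinarith
    linarith
  -- the difference vanishes on the types `(1, y, d)`
  have zer : ∀ y, e < y → y < d + d * (1 - d) / 2 →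
      dot ⟨1, y, d⟩ (x ⟨1, y, d⟩ q) - dot ⟨1, y, d⟩ (x ⟨1, y, d⟩ one) = 0 := by
    intro y hy1 hy2
    apply le_antisymm
    · -- upper bound, direction `(0, 1 + η, η)`
      have hyd : 0 < y - d := by linarith
      have hyd2 : y - d ≤ d / 2 := by nlinarith
      have hV : Val m ⟨1, d - (y - d) * η, d - (y - d) * η⟩ := by
        have : 0 < d - (y - d) * η := by nlinarith
        exact val_of_pos h zero_le_one this this.le
      have f1 := mono_dir h q one hqV h1V ⟨0, 1 + η, η⟩ ⟨le_rfl, by positivity, hη0.le⟩ c2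
        ⟨1, d - (y - d) * η, d - (y - d) * η⟩ hV (y - d) hyd.le
      have f2 : (⟨1 + (y - d) * 0, d - (y - d) * η + (y - d) * (1 + η),
          d - (y - d) * η + (y - d) * η⟩ : V3) = ⟨1, y, d⟩ := by
        congr 1 <;> ring
      simp only [f2] at f1
      have f3 := reg ⟨1, d - (y - d) * η, d - (y - d) * η⟩ hV
        (by change d - (y - d) * η ≤ d * 1; nlinarith)
        (by change d - (y - d) * η ≤ d * 1; nlinarith)
      linarith
    · -- lower bound, direction `one`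
      obtain ⟨s, hs⟩ : ∃ s, s = (y - d) / (1 - d) := ⟨_, rfl⟩
      have hs1 : s * (1 - d) = y - d := by rw [hs]; field_simp
      have hs0 : 0 < s := by rw [hs]; exact div_pos (by linarith) hdd
      have hs2 : s < d := by
        have : s * (1 - d) < d * (1 - d) := by
          rw [hs1]
          nlinarith [mul_pos hd hdd]
        exact lt_of_mul_lt_mul_right this hdd.le
      have hV : Val m ⟨1 - s, y - s, d - s⟩ :=
        val_of_pos h (by change 0 ≤ 1 - s; linarith) (by change 0 < y - s; linarith)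
          (by change 0 ≤ d - s; linarith)
      have f1 := mono_dir h one q h1V hqV one ⟨zero_le_one, zero_le_one, zero_le_one⟩ c1
        ⟨1 - s, y - s, d - s⟩ hV s hs0.le
      have f2 : (⟨1 - s + s * one.a, y - s + s * one.b, d - s + s * one.c⟩ : V3) = ⟨1, y, d⟩ := by
        simp only [one]
        congr 1 <;> ring
      simp only [f2] at f1
      have f3 := reg ⟨1 - s, y - s, d - s⟩ hV
        (by change y - s ≤ d * (1 - s); nlinarith)
        (by change d - s ≤ d * (1 - s); nlinarith)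
      linarith
  -- the middle component is everything
  have mid : ∀ y, e < y → (x ⟨1, y, d⟩ one).b = m.b := by
    intro y hy
    have hE' : Val m ⟨1, e, e⟩ := val_of_pos h zero_le_one (by change 0 < e; linarith)
      (by change 0 ≤ e; linarith)
    have f1 := h.t1 ⟨1, y, d⟩ ⟨1, e, e⟩ one (hW y hy) hE' h1V
    have f2 := h.t1 ⟨1, e, e⟩ ⟨1, y, d⟩ one hE' (hW y hy) h1V
    obtain ⟨x3, x4⟩ := h.xb ⟨1, y, d⟩ one (hW y hy) h1V
    obtain ⟨x5, x6⟩ := h.xc ⟨1, y, d⟩ one (hW y hy) h1V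
    simp only [dot, H3, H3'] at f1 f2
    have g1 : (y - e) * (m.b - (x ⟨1, y, d⟩ one).b) ≤ 0 := by
      have : 0 ≤ (e - d) * (x ⟨1, y, d⟩ one).c := mul_nonneg (by linarith) x5
      nlinarith
    by_contra hne
    have : 0 < m.b - (x ⟨1, y, d⟩ one).b := by
      rcases lt_or_eq_of_le x4 with h' | h'
      · linarith
      · exact absurd h' hne
    have := mul_pos (by linarith : 0 < y - e) this
    linarith
  have f1 := zer θ hθ1 hθ2
  have f2 := zer θ' (by linarith) hθ4
  have f3 := mid θ hθ1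
  have hVθ := hW θ hθ1
  have hVθ' := hW θ' (by linarith)
  have f4 := h.t1 ⟨1, θ', d⟩ ⟨1, θ, d⟩ one hVθ' hVθ h1V
  have f5 := h.t1 ⟨1, θ, d⟩ ⟨1, θ', d⟩ q hVθ hVθ' hqV
  have f6 : (θ' - θ) * m.b ≤ (θ' - θ) * (x ⟨1, θ', d⟩ q).b := by
    simp only [dot] at f1 f2 f4 f5
    rw [f3] at f4 f1
    nlinarith
  have f7 : m.b ≤ (x ⟨1, θ', d⟩ q).b := le_of_mul_le_mul_left f6 (by linarith)
  have f8 := h.t2 ⟨1, θ', d⟩ q ⟨0, 1, 0⟩ hVθ' hqV hE
  obtain ⟨x1, -⟩ := h.xa ⟨1, θ', d⟩ q hVθ' hqV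
  obtain ⟨x3, -⟩ := h.xb ⟨1, θ', d⟩ q hVθ' hqV
  obtain ⟨x5, -⟩ := h.xc ⟨1, θ', d⟩ q hVθ' hqV
  obtain ⟨-, y1⟩ := h.xa ⟨1, θ', d⟩ ⟨0, 1, 0⟩ hVθ' hE
  obtain ⟨-, y5⟩ := h.xc ⟨1, θ', d⟩ ⟨0, 1, 0⟩ hVθ' hE
  have f9 : (x ⟨1, θ', d⟩ ⟨0, 1, 0⟩).b = m.b - κ := by linarith
  simp only [dot, hqa, hqb, hqc] at f8
  rw [f9] at f8
  have k1 : (1 + t * (1 + η)) * m.b ≤ (1 + t * (1 + η)) * (x ⟨1, θ', d⟩ q).b :=
    mul_le_mul_of_nonneg_left f7 (by positivity)
  have k2 : 0 ≤ (1 + t * η) * (x ⟨1, θ', d⟩ q).c := mul_nonneg (by positivity) x5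
  have k3 : (1 + t * η) * (x ⟨1, θ', d⟩ ⟨0, 1, 0⟩).c ≤ (1 + t * η) * m.c :=
    mul_le_mul_of_nonneg_left y5 (by positivity)
  have k4 : (1 + t * (1 + η)) * κ ≤ m.a + (1 + t * η) * m.c := by nlinarith
  have k5 : t * (η * m.c) ≤ t * (κ / 2) := mul_le_mul_of_nonneg_left hη2 ht0.le
  have k6 : 0 ≤ t * η * κ := by positivity
  nlinarith

end Pool.Agent.Q214.Cake
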