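import Pool.Agent.Q214.Cake.Core
import Pool.Agent.Q214.Cake.Basic

/-!
# No truthful mechanism for two agents gives positive value to both agents
-/

set_option autoImplicit false

namespace Pool.Agent.Q214.Cake

open MeasureTheory Set

/-- A truthful mechanism for two agents that gives positive value to both agents. The set
`X f g` is the piece of the first agent. -/
structure Mech (X : (ℝ → ℝ) → (ℝ → ℝ) → Set ℝ) : Prop where
  sub : ∀ f g, Good f → Good g → X f g ⊆ Icc 0 1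
  pc : ∀ f g, Good f → Good g → PC fun x => x ∈ X f g
  t1 : ∀ f f' g, Good f → Good f' → Good g → val f (X f' g) ≤ val f (X f g)
  t2 : ∀ f g g', Good f → Good g → Good g' → val g (X f g) ≤ val g (X f g')
  p1 : ∀ f g, Good f → Good g → 0 < val f (X f g)
  p2 : ∀ f g, Good f → Good g → val g (X f g) < val g (Icc 0 1)

variable {X : (ℝ → ℝ) → (ℝ → ℝ) → Set ℝ}

theorem Mech.meas (h : Mech X) {f g : ℝ → ℝ} (hf : Good f) (hg : Good g) :
    MeasurableSet (X f g) := (h.pc f g hf hg).measurableSet (h.sub f g hf hg)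

/-- The mechanism with the agents exchanged. -/
theorem Mech.swap (h : Mech X) : Mech fun f g => Icc 0 1 \ X g f where
  sub f g _ _ := sdiff_subset
  pc f g hf hg := ((h.pc g f hg hf).map Not).congr fun x hx => by
    apply propext
    constructor
    · intro h1
      exact ⟨hx, h1⟩
    · intro h1
      exact h1.2
  t1 f f' g hf hf' hg := by
    rw [val_compl hf.pc (h.sub _ _ hg hf') (h.meas hg hf'),
      val_compl hf.pc (h.sub _ _ hg hf) (h.meas hg hf)]
    have := h.t2 g f f' hg hf hf'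
    linarith
  t2 f g g' hf hg hg' := by
    rw [val_compl hg.pc (h.sub _ _ hg hf) (h.meas hg hf),
      val_compl hg.pc (h.sub _ _ hg' hf) (h.meas hg' hf)]
    have := h.t1 g g' f hg hg' hf
    linarith
  p1 f g hf hg := by
    rw [val_compl hf.pc (h.sub _ _ hg hf) (h.meas hg hf)]
    have := h.p2 g f hg hf
    linarith
  p2 f g hf hg := by
    rw [val_compl hg.pc (h.sub _ _ hg hf) (h.meas hg hf)]
    have := h.p1 g f hg hf
    linarith

open Classical in
/-- The density that is `p` times a step function. -/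
noncomputable def mk (p : ℝ → ℝ) (B E : Set ℝ) (v : V3) (x : ℝ) : ℝ :=
  p x * (if x ∈ B then v.a else if x ∈ E then v.b else v.c)

theorem mk_pc {p : ℝ → ℝ} (hp : PC p) {B E : Set ℝ} (hB : PC fun x => x ∈ B)
    (hE : PC fun x => x ∈ E) (v : V3) : PC (mk p B E v) := by
  classical
  have h1 := hp.map₂ (hB.map₂ hE fun b e => if b then v.a else if e then v.b else v.c)
    fun s t => s * t
  exact h1.congr fun x _ => by simp [mk]

theorem mk_one (p : ℝ → ℝ) (B E : Set ℝ) : mk p B E one = p := by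
  funext x
  simp [mk, one]

theorem mk_flat (p : ℝ → ℝ) (B E : Set ℝ) (s t : ℝ) : mk p B E ⟨s, t, t⟩ = mk p B ∅ ⟨s, t, t⟩ := by
  funext x
  simp [mk]

theorem val_congr {f g : ℝ → ℝ} {Y : Set ℝ} (hY : MeasurableSet Y) (h : ∀ x ∈ Y, f x = g x) :
    val f Y = val g Y := setIntegral_congr_fun hY h

theorem val_smul (c : ℝ) (f : ℝ → ℝ) (Y : Set ℝ) : val (fun x => c * f x) Y = c * val f Y :=
  integral_const_mul c f

theorem val_mk {p : ℝ → ℝ} (hp : PC p) {B E : Set ℝ} (hB : PC fun x => x ∈ B)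
    (hE : PC fun x => x ∈ E) (hBs : B ⊆ Icc 0 1) (hEs : E ⊆ Icc 0 1) (v : V3) {Y : Set ℝ}
    (hY : Y ⊆ Icc 0 1) (hYm : MeasurableSet Y) :
    val (mk p B E v) Y = dot v ⟨val p (Y ∩ B), val p ((Y \ B) ∩ E), val p ((Y \ B) \ E)⟩ := by
  have hBm := hB.measurableSet hBs
  have hEm := hE.measurableSet hEs
  have h1 := mk_pc hp hB hE v
  rw [val_split h1 hY hBm, val_split h1 (sdiff_subset.trans hY) hEm]
  have e1 : val (mk p B E v) (Y ∩ B) = v.a * val p (Y ∩ B) := by
    rw [← val_smul]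
    refine val_congr (hYm.inter hBm) fun x hx => ?_
    have := hx.2
    simp [mk, this, mul_comm]
  have e2 : val (mk p B E v) ((Y \ B) ∩ E) = v.b * val p ((Y \ B) ∩ E) := by
    rw [← val_smul]
    refine val_congr ((hYm.diff hBm).inter hEm) fun x hx => ?_
    have h2 := hx.1.2
    have h3 := hx.2
    simp [mk, h2, h3, mul_comm]
  have e3 : val (mk p B E v) ((Y \ B) \ E) = v.c * val p ((Y \ B) \ E) := by
    rw [← val_smul]
    refine val_congr ((hYm.diff hBm).diff hEm) fun x hx => ?_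
    have h2 := hx.1.2
    have h3 := hx.2
    simp [mk, h2, h3, mul_comm]
  rw [e1, e2, e3]
  simp only [dot]
  ring

theorem val_le {f g : ℝ → ℝ} (hf : PC f) (hg : PC g) {Y : Set ℝ} (hY : Y ⊆ Icc 0 1)
    (hYm : MeasurableSet Y) (h : ∀ x ∈ Y, f x ≤ g x) : val f Y ≤ val g Y :=
  setIntegral_mono_on (hf.integrableOn.mono_set hY) (hg.integrableOn.mono_set hY) hYm h

theorem PC.bdd {f : ℝ → ℝ} (h : PC f) : ∃ K, ∀ x ∈ Icc (0 : ℝ) 1, f x ≤ K := by
  obtain ⟨P, h1, h2, h3, h4⟩ := h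
  have : (f '' Icc 0 1).Finite := by
    rw [← h3, image_iUnion₂]
    refine P.finite_toSet.biUnion fun I hI => Set.Subsingleton.finite ?_
    rintro _ ⟨x, hx, rfl⟩ _ ⟨y, hy, rfl⟩
    exact h4 I hI x hx y hy
  obtain ⟨K, hK⟩ := this.bddAbove
  exact ⟨K, fun x hx => hK ⟨x, hx, rfl⟩⟩

open Classical in
/-- The uniform density. -/
noncomputable def uni (x : ℝ) : ℝ := if x ∈ Icc (0 : ℝ) 1 then 1 else 0

theorem uni_pc : PC uni := (PC.const (1 : ℝ)).congr fun x hx => by simp only [uni, if_pos hx]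

theorem uni_good : Good uni where
  nonneg x := by
    simp only [uni]
    split_ifs <;> norm_num
  off x hx := by simp only [uni, if_neg hx]
  pc := uni_pc
  pos := by
    have : ∫ x in Icc (0 : ℝ) 1, uni x = ∫ x in Icc (0 : ℝ) 1, (1 : ℝ) :=
      setIntegral_congr_fun measurableSet_Icc fun x hx => by simp only [uni, if_pos hx]
    rw [this]
    simp

/-- **The main lemma.** -/
theorem lemmaA (h : Mech X) {p : ℝ → ℝ} (hp : Good p) {κ : ℝ} (hκ : 0 < κ)
    (hp' : ∀ x ∈ Icc (0 : ℝ) 1, κ ≤ p x) : val p (X p p) ≤ val p (X uni p) := by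
  by_contra hcon
  push Not at hcon
  obtain ⟨B, hB⟩ : ∃ B, B = X uni p := ⟨_, rfl⟩
  rw [← hB] at hcon
  have hBs : B ⊆ Icc 0 1 := hB ▸ h.sub _ _ uni_good hp
  have hBp : PC fun x => x ∈ B := hB ▸ h.pc _ _ uni_good hp
  have hBm : MeasurableSet B := hBp.measurableSet hBs
  obtain ⟨K, hK⟩ := hp.pc.bdd
  have hK0 : 0 < K := hκ.trans_le ((hp' 0 (by simp)).trans (hK 0 (by simp)))
  -- comparison with the uniform measure
  have cmp1 : ∀ Y, Y ⊆ Icc (0 : ℝ) 1 → MeasurableSet Y → κ * val uni Y ≤ val p Y := by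
    intro Y hY hYm
    rw [← val_smul]
    refine val_le (uni_pc.map fun z => κ * z) hp.pc hY hYm fun x hx => ?_
    simp only [uni, if_pos (hY hx), mul_one]
    exact hp' x (hY hx)
  have cmp2 : ∀ Y, Y ⊆ Icc (0 : ℝ) 1 → MeasurableSet Y → val p Y ≤ K * val uni Y := by
    intro Y hY hYm
    rw [← val_smul]
    refine val_le hp.pc (uni_pc.map fun z => K * z) hY hYm fun x hx => ?_
    simp only [uni, if_pos (hY hx), mul_one]
    exact hK x (hY hx)
  -- splitting
  have spl : ∀ (f : ℝ → ℝ), PC f → ∀ a, Good a →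
      val f (X a p) = val f (X a p ∩ B) + val f (X a p \ B) ∧
      val f B = val f (X a p ∩ B) + val f (B \ X a p) := by
    intro f hf a ha
    refine ⟨val_split hf (h.sub _ _ ha hp) hBm, ?_⟩
    rw [val_split hf hBs (h.meas ha hp), inter_comm]
  have base : ∀ a, Good a → κ / K * val p (X a p \ B) ≤ val p (B \ X a p) := by
    intro a ha
    have e1 := h.t1 uni a p uni_good ha hp
    rw [← hB] at e1
    obtain ⟨e2, e3⟩ := spl uni uni_pc a ha
    have e4 := cmp2 (X a p \ B) (sdiff_subset.trans (h.sub _ _ ha hp)) ((h.meas ha hp).diff hBm)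
    have e5 := cmp1 (B \ X a p) (sdiff_subset.trans hBs) (hBm.diff (h.meas ha hp))
    have e6 : val uni (X a p \ B) ≤ val uni (B \ X a p) := by linarith
    calc κ / K * val p (X a p \ B) ≤ κ / K * (K * val uni (X a p \ B)) :=
          mul_le_mul_of_nonneg_left e4 (by positivity)
      _ = κ * val uni (X a p \ B) := by field_simp
      _ ≤ κ * val uni (B \ X a p) := mul_le_mul_of_nonneg_left e6 hκ.le
      _ ≤ val p (B \ X a p) := e5
  -- the critical exchange rate
  obtain ⟨S, hS⟩ : ∃ S : Set ℝ, S = {r | ∀ a, Good a → r * val p (X a p \ B) ≤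
    val p (B \ X a p)} := ⟨_, rfl⟩
  have hS0 : κ / K ∈ S := by rw [hS]; exact base
  have hAB : val p (B \ X p p) < val p (X p p \ B) := by
    obtain ⟨e1, e2⟩ := spl p hp.pc p hp
    linarith
  have hABpos : 0 < val p (X p p \ B) := (val_nonneg hp.nonneg _).trans_lt hAB
  have hSb : ∀ r ∈ S, r ≤ val p (B \ X p p) / val p (X p p \ B) := by
    intro r hr
    rw [hS] at hr
    rw [le_div_iff₀ hABpos]
    exact hr p hp
  have hbdd : BddAbove S := ⟨_, hSb⟩
  obtain ⟨d, hd⟩ : ∃ d, d = sSup S := ⟨_, rfl⟩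
  have hd0 : 0 < d := by
    have : κ / K ≤ d := by rw [hd]; exact le_csSup hbdd hS0
    exact (by positivity : 0 < κ / K).trans_le this
  have hd1 : d < 1 := by
    have e1 : d ≤ val p (B \ X p p) / val p (X p p \ B) := by
      rw [hd]
      exact csSup_le ⟨_, hS0⟩ hSb
    refine e1.trans_lt ?_
    rw [div_lt_one hABpos]
    exact hAB
  have hdS : ∀ a, Good a → d * val p (X a p \ B) ≤ val p (B \ X a p) := by
    intro a ha
    rcases (val_nonneg hp.nonneg (X a p \ B)).eq_or_lt with h0 | h0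
    · rw [← h0, mul_zero]
      exact val_nonneg hp.nonneg _
    · rw [← le_div_iff₀ h0, hd]
      refine csSup_le ⟨_, hS0⟩ fun r hr => ?_
      rw [hS] at hr
      rw [le_div_iff₀ h0]
      exact hr a ha
  obtain ⟨e, he1, he2⟩ : ∃ e, d < e ∧ e < d + d * (1 - d) / 2 := by
    have : 0 < d * (1 - d) := mul_pos hd0 (by linarith)
    exact exists_between (by linarith)
  have heS : e ∉ S := fun hin => by
    have : e ≤ d := by rw [hd]; exact le_csSup hbdd hin
    linarith
  rw [hS] at heS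
  simp only [mem_setOf_eq, not_forall, not_le] at heS
  obtain ⟨a, ha, hae⟩ := heS
  have he0 : 0 < e := hd0.trans he1
  -- the piece for the type `(1, e, e)`
  have hemp : PC fun x => x ∈ (∅ : Set ℝ) := (PC.const False).congr fun x _ => by simp
  have goodmk : ∀ (E : Set ℝ), (PC fun x => x ∈ E) → E ⊆ Icc 0 1 → ∀ v : V3, 0 ≤ v.a → 0 ≤ v.b →
      0 ≤ v.c → 0 < dot v ⟨val p B, val p ((Icc 0 1 \ B) ∩ E), val p ((Icc 0 1 \ B) \ E)⟩ →
      Good (mk p B E v) := by
    intro E hE hEs v h1 h2 h3 h4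
    refine ⟨fun x => ?_, fun x hx => ?_, mk_pc hp.pc hBp hE v, ?_⟩
    · refine mul_nonneg (hp.nonneg x) ?_
      split_ifs <;> assumption
    · simp only [mk, hp.off x hx, zero_mul]
    · have e1 := val_mk hp.pc hBp hE hBs hEs v (subset_refl (Icc (0 : ℝ) 1)) measurableSet_Icc
      rw [inter_eq_self_of_subset_right hBs] at e1
      change 0 < val (mk p B E v) (Icc 0 1)
      rw [e1]
      exact h4
  have hpIcc : 0 < val p (Icc 0 1) := hp.pos
  have hsplitI : val p (Icc 0 1) = val p B + val p (Icc 0 1 \ B) := by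
    have := val_split hp.pc (subset_refl (Icc (0 : ℝ) 1)) hBm
    rwa [inter_eq_self_of_subset_right hBs] at this
  have hBn : 0 ≤ val p B := val_nonneg hp.nonneg _
  have hCn : 0 ≤ val p (Icc 0 1 \ B) := val_nonneg hp.nonneg _
  have hce : Good (mk p B ∅ ⟨1, e, e⟩) := by
    refine goodmk ∅ hemp (empty_subset _) _ zero_le_one he0.le he0.le ?_
    simp only [dot, inter_empty, sdiff_empty]
    have e1 : val p (∅ : Set ℝ) = 0 := by simp [val]
    rw [e1]
    rcases hBn.eq_or_lt with h0 | h0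
    · have : 0 < val p (Icc 0 1 \ B) := by linarith
      have := mul_pos he0 this
      linarith
    · have := mul_nonneg he0.le hCn
      linarith
  obtain ⟨Y, hY⟩ : ∃ Y, Y = X (mk p B ∅ ⟨1, e, e⟩) p := ⟨_, rfl⟩
  have hYs : Y ⊆ Icc 0 1 := hY ▸ h.sub _ _ hce hp
  have hYp : PC fun x => x ∈ Y := hY ▸ h.pc _ _ hce hp
  have hYm : MeasurableSet Y := hYp.measurableSet hYs
  have valce : ∀ Z, Z ⊆ Icc (0 : ℝ) 1 → MeasurableSet Z →
      val (mk p B ∅ ⟨1, e, e⟩) Z = val p (Z ∩ B) + e * val p (Z \ B) := by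
    intro Z hZ hZm
    rw [val_mk hp.pc hBp hemp hBs (empty_subset _) _ hZ hZm]
    have e1 : val p (∅ : Set ℝ) = 0 := by simp [val]
    simp only [dot, inter_empty, sdiff_empty, e1]
    ring
  have hYpos : 0 < val p (Y \ B) := by
    have e1 := h.t1 (mk p B ∅ ⟨1, e, e⟩) a p hce ha hp
    rw [← hY, valce _ (h.sub _ _ ha hp) (h.meas ha hp), valce _ hYs hYm] at e1
    obtain ⟨-, e2⟩ := spl p hp.pc a ha
    obtain ⟨-, e3⟩ := spl p hp.pc _ hce
    rw [← hY] at e3
    have e4 := val_nonneg hp.nonneg (B \ Y)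
    have e5 : 0 < e * val p (Y \ B) := by linarith
    exact pos_of_mul_pos_right e5 he0.le
  -- the set `E`
  obtain ⟨E, hE⟩ : ∃ E, E = Y \ B := ⟨_, rfl⟩
  have hEs : E ⊆ Icc 0 1 := hE ▸ sdiff_subset.trans hYs
  have hEp : PC fun x => x ∈ E := by
    rw [hE]
    exact (hYp.map₂ hBp fun y b => y ∧ ¬ b)
  have hEm := hEp.measurableSet hEs
  have hEB : (Icc 0 1 \ B) ∩ E = E := by
    apply inter_eq_self_of_subset_right
    rw [hE]
    exact sdiff_subset_sdiff_left hYs
  -- the restricted mechanism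
  obtain ⟨m, hm⟩ : ∃ m : V3, m = ⟨val p B, val p E, val p ((Icc 0 1 \ B) \ E)⟩ := ⟨_, rfl⟩
  have hma : m.a = val p B := by rw [hm]
  have hmb : m.b = val p E := by rw [hm]
  have hmc : m.c = val p ((Icc 0 1 \ B) \ E) := by rw [hm]
  let xx : V3 → V3 → V3 := fun v w => ⟨val p (X (mk p B E v) (mk p B E w) ∩ B),
    val p ((X (mk p B E v) (mk p B E w) \ B) ∩ E), val p ((X (mk p B E v) (mk p B E w) \ B) \ E)⟩
  have gd : ∀ v, Val m v → Good (mk p B E v) := by
    intro v hv
    refine goodmk E hEp hEs v hv.1 hv.2.1 hv.2.2.1 ?_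
    have := hv.2.2.2
    rw [hm] at this
    rwa [hEB]
  have vx : ∀ u v w, Val m u → Val m v → Val m w →
      val (mk p B E u) (X (mk p B E v) (mk p B E w)) = dot u (xx v w) := by
    intro u v w hu hv hw
    exact val_mk hp.pc hBp hEp hBs hEs u (h.sub _ _ (gd v hv) (gd w hw))
      (h.meas (gd v hv) (gd w hw))
  have hmec : Mec m xx := by
    refine ⟨?_, ?_, ?_, ?_, ?_, ?_, ?_, ?_⟩
    · rw [hma]; exact hBn
    · rw [hmb, hE]; exact hYpos
    · rw [hmc]; exact val_nonneg hp.nonneg _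
    · intro v w hv hw
      refine ⟨val_nonneg hp.nonneg _, ?_⟩
      rw [hma]
      exact val_mono hp.nonneg hp.pc inter_subset_right hBs
    · intro v w hv hw
      refine ⟨val_nonneg hp.nonneg _, ?_⟩
      rw [hmb]
      exact val_mono hp.nonneg hp.pc inter_subset_right hEs
    · intro v w hv hw
      refine ⟨val_nonneg hp.nonneg _, ?_⟩
      rw [hmc]
      refine val_mono hp.nonneg hp.pc ?_ (sdiff_subset.trans sdiff_subset)
      exact sdiff_subset_sdiff_left (sdiff_subset_sdiff_left (h.sub _ _ (gd v hv) (gd w hw)))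
    · intro v v' w hv hv' hw
      rw [← vx v v' w hv hv' hw, ← vx v v w hv hv hw]
      exact h.t1 _ _ _ (gd v hv) (gd v' hv') (gd w hw)
    · intro v w w' hv hw hw'
      rw [← vx w v w hw hv hw, ← vx w v w' hw hv hw']
      exact h.t2 _ _ _ (gd v hv) (gd w hw) (gd w' hw')
  have v1 := val_one hmec
  refine core hmec ?_ hd0 hd1 ?_ he1 he2 ?_ ?_ ?_
  · intro v hv
    rw [← vx v v one hv hv v1]
    have e1 := h.t1 _ uni _ (gd v hv) uni_good (gd one v1)
    refine le_trans (le_of_eq ?_) e1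
    rw [mk_one, ← hB, val_mk hp.pc hBp hEp hBs hEs v hBs hBm, hma]
    have e2 : B ∩ B = B := inter_self B
    have e3 : B \ B = ∅ := Set.sdiff_self
    have e4 : val p (∅ : Set ℝ) = 0 := by simp [val]
    simp only [dot, e2, e3, empty_inter, empty_sdiff, e4]
    ring
  · intro v hv
    have e1 := hdS _ (gd v hv)
    obtain ⟨e2, e3⟩ := spl p hp.pc _ (gd v hv)
    have hsub := h.sub _ _ (gd v hv) hp
    have e4 := val_split hp.pc (sdiff_subset.trans hsub : X (mk p B E v) p \ B ⊆ Icc 0 1) hEm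
    change d * (val p ((X (mk p B E v) (mk p B E one) \ B) ∩ E) +
      val p ((X (mk p B E v) (mk p B E one) \ B) \ E)) ≤
        m.a - val p (X (mk p B E v) (mk p B E one) ∩ B)
    rw [mk_one, ← e4, hma]
    linarith
  · change val p ((X (mk p B E ⟨1, e, e⟩) (mk p B E one) \ B) ∩ E) = m.b
    rw [mk_one, mk_flat, ← hY, ← hE, inter_self, hmb]
  · change val p ((X (mk p B E ⟨1, e, e⟩) (mk p B E one) \ B) \ E) = 0
    rw [mk_one, mk_flat, ← hY, ← hE, Set.sdiff_self]
    simp [val]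
  · intro v hv
    have hw : Val m ⟨0, 1, 0⟩ := val_of_pos hmec le_rfl zero_lt_one le_rfl
    have e1 := h.p2 _ _ (gd v hv) (gd _ hw)
    rw [vx _ v _ hw hv hw, val_mk hp.pc hBp hEp hBs hEs _ (subset_refl (Icc (0 : ℝ) 1))
      measurableSet_Icc, hEB] at e1
    simp only [dot, zero_mul, one_mul, zero_add, add_zero] at e1
    rw [hmb]
    exact e1

/-- **The main theorem in terms of functions.** -/
theorem no_mech (h : Mech X) : False := by
  obtain ⟨C, hC⟩ : ∃ C, C = Icc 0 1 \ X uni uni := ⟨_, rfl⟩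
  have hAs := h.sub _ _ uni_good uni_good
  have hAm := h.meas uni_good uni_good
  have hCs : C ⊆ Icc 0 1 := hC ▸ sdiff_subset
  have hCp : PC fun x => x ∈ C := by
    rw [hC]
    exact ((h.pc _ _ uni_good uni_good).map Not).congr fun x hx => propext
      ⟨fun h1 => ⟨hx, h1⟩, fun h1 => h1.2⟩
  have hCm := hCp.measurableSet hCs
  have hemp : PC fun x => x ∈ (∅ : Set ℝ) := (PC.const False).congr fun x _ => by simp
  have hCpos : 0 < val uni C := by
    rw [hC, val_compl uni_pc hAs hAm]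
    have := h.p2 _ _ uni_good uni_good
    linarith
  have e0 : val uni (∅ : Set ℝ) = 0 := by simp [val]
  have valmk : ∀ s t : ℝ, ∀ Z, Z ⊆ Icc (0 : ℝ) 1 → MeasurableSet Z →
      val (mk uni C ∅ ⟨s, t, t⟩) Z = s * val uni (Z ∩ C) + t * val uni (Z \ C) := by
    intro s t Z hZ hZm
    rw [val_mk uni_pc hCp hemp hCs (empty_subset _) _ hZ hZm]
    simp only [dot, inter_empty, sdiff_empty, e0]
    ring
  have good : ∀ s t : ℝ, 0 < s → 0 ≤ t → Good (mk uni C ∅ ⟨s, t, t⟩) := by
    intro s t hs ht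
    refine ⟨fun x => ?_, fun x hx => ?_, mk_pc uni_pc hCp hemp _, ?_⟩
    · refine mul_nonneg (uni_good.nonneg x) ?_
      split_ifs
      · exact hs.le
      · exact ht
      · exact ht
    · simp only [mk, uni_good.off x hx, zero_mul]
    · change 0 < val _ _
      rw [valmk s t _ (subset_refl _) measurableSet_Icc, inter_eq_self_of_subset_right hCs]
      have e1 := mul_pos hs hCpos
      have e2 := mul_nonneg ht (val_nonneg uni_good.nonneg (Icc 0 1 \ C))
      linarith
  have hg0 := good 1 0 one_pos le_rfl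
  obtain ⟨c, hc⟩ : ∃ c, c = val (mk uni C ∅ ⟨1, 0, 0⟩) (X (mk uni C ∅ ⟨1, 0, 0⟩) uni) := ⟨_, rfl⟩
  have hc0 : 0 < c := hc ▸ h.p1 _ _ hg0 uni_good
  -- a small number
  obtain ⟨ε, hε⟩ : ∃ ε, ε = c / 2 := ⟨_, rfl⟩
  have hε0 : 0 < ε := by rw [hε]; exact half_pos hc0
  obtain ⟨v, hv⟩ : ∃ v, v = mk uni C ∅ ⟨1 + ε, ε, ε⟩ := ⟨_, rfl⟩
  have hvg : Good v := hv ▸ good (1 + ε) ε (by linarith) hε0.le
  have hvlow : ∀ x ∈ Icc (0 : ℝ) 1, ε ≤ v x := by
    intro x hx
    rw [hv]
    simp only [mk, uni, if_pos hx, one_mul]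
    split_ifs <;> linarith
  have a1 := lemmaA h hvg hε0 hvlow
  have a2 := lemmaA h.swap hvg hε0 hvlow
  rw [val_compl hvg.pc (h.sub _ _ hvg hvg) (h.meas hvg hvg),
    val_compl hvg.pc (h.sub _ _ hvg uni_good) (h.meas hvg uni_good)] at a2
  have a3 := h.t2 uni v uni uni_good hvg uni_good
  have a4 := h.t1 v _ uni hvg hg0 uni_good
  have b1 : val v (X uni uni) ≤ ε := by
    rw [hv, valmk _ _ _ hAs hAm]
    have e1 : X uni uni ∩ C = ∅ := by
      rw [hC]
      exact inter_sdiff_self _ _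
    have e2 : X uni uni \ C ⊆ Icc 0 1 := sdiff_subset.trans hAs
    have e3 : val uni (X uni uni \ C) ≤ val uni (Icc 0 1) :=
      val_mono uni_good.nonneg uni_pc e2 (subset_refl _)
    have e4 : val uni (Icc 0 1) = 1 := by
      have : ∫ x in Icc (0 : ℝ) 1, uni x = ∫ x in Icc (0 : ℝ) 1, (1 : ℝ) :=
        setIntegral_congr_fun measurableSet_Icc fun x hx => by simp only [uni, if_pos hx]
      change ∫ x in Icc (0 : ℝ) 1, uni x = 1
      rw [this]
      simp
    rw [e1, e0, mul_zero, zero_add]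
    have := mul_le_mul_of_nonneg_left (e3.trans_eq e4) hε0.le
    linarith
  have b2 : c ≤ val v (X (mk uni C ∅ ⟨1, 0, 0⟩) uni) := by
    have hs := h.sub _ _ hg0 uni_good
    have hm := h.meas hg0 uni_good
    rw [hc, hv, valmk 1 0 _ hs hm, valmk (1 + ε) ε _ hs hm]
    have e1 := val_nonneg uni_good.nonneg (X (mk uni C ∅ ⟨1, 0, 0⟩) uni ∩ C)
    have e2 := val_nonneg uni_good.nonneg (X (mk uni C ∅ ⟨1, 0, 0⟩) uni \ C)
    have e3 := mul_nonneg hε0.le e1
    have e4 := mul_nonneg hε0.le e2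
    linarith
  linarith

end Pool.Agent.Q214.Cake
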